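import Pool.Agent.Helper98.WF.St

/-!
# Project WF (MP_bae8ce_ag), module CMP: comparison of symbols
-/

set_option autoImplicit false

namespace Pool.Agent.Helper80.WF.M_CMP

open Pool.Agent.Helper98.WF
open Polynomial

theorem stCMP (hGEN : StGEN) : StCMP := by
  intro F E _ _ _ L P S m n hL hm hn a c a' c' s ha hc hd ha' hc' hd' sA sK sD sA' sK' sD' sS heq
  obtain ⟨⟨-, -, hneg⟩, -⟩ := hGEN F E L hL
  have anti : ∀ x ∈ S, ∀ y ∈ S, m x y = - m y x := by
    intro x hx y hy
    have h1 := hm (x + y) (S.add_mem hx hy)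
    have h2 := hm x hx
    have h3 := hm y hy
    simp only [map_add, LinearMap.add_apply] at h1
    linarith
  unfold Z
  by_cases hs : s = 0
  · subst hs
    rw [mul_zero] at heq
    have e1 : a * c' = a' * c := sub_eq_zero.1 heq
    have e2 : (c - a) * c' = c * (c' - a') := by
      linear_combination -e1
    have f1 : L a + L c' = L a' + L c := by
      rw [← hL.mul a c' ha hc', ← hL.mul a' c ha' hc, e1]
    have f2 : L (c - a) + L c' = L c + L (c' - a') := by
      rw [← hL.mul _ c' hd hc', ← hL.mul c _ hc hd', e2]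
    have g1 : L a - L c = L a' - L c' := by
      rw [sub_eq_sub_iff_add_eq_add]
      rw [f1]
    have g2 : L (c - a) - L c = L (c' - a') - L c' := by
      rw [sub_eq_sub_iff_add_eq_add]
      rw [f2, add_comm]
    rw [g1, g2]
  · have hns : (-s) ≠ 0 := neg_ne_zero.2 hs
    have t1 : Tri L P S (L a' + L c - (L c' + L a)) (L s - (L c' + L a)) := by
      refine ⟨a' * c, s, c' * a, mul_ne_zero ha' hc, hs, mul_ne_zero hc' ha, ?_, ?_, ?_, ?_, ?_⟩
      · linear_combination -heq
      · rw [hL.mul a' c ha' hc, hL.mul c' a hc' ha]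
      · rw [hL.mul c' a hc' ha]
      · exact S.sub_mem (S.add_mem sA' sK) (S.add_mem sK' sA)
      · exact S.sub_mem sS (S.add_mem sK' sA)
    have t2 : Tri L P S (L (c' - a') + L c - (L c' + L (c - a))) (L s - (L c' + L (c - a))) := by
      refine ⟨(c' - a') * c, -s, c' * (c - a), mul_ne_zero hd' hc, hns, mul_ne_zero hc' hd,
        ?_, ?_, ?_, ?_, ?_⟩
      · linear_combination heq
      · rw [hL.mul _ c hd' hc, hL.mul c' _ hc' hd]
      · rw [hL.mul c' _ hc' hd, hneg]
      · exact S.sub_mem (S.add_mem sD' sK) (S.add_mem sK' sD)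
      · exact S.sub_mem sS (S.add_mem sK' sD)
    have t3 : Tri L P S (L a' + L (c - a) - (L a + L (c' - a'))) (L s - (L a + L (c' - a'))) := by
      refine ⟨a' * (c - a), s, a * (c' - a'), mul_ne_zero ha' hd, hs, mul_ne_zero ha hd',
        ?_, ?_, ?_, ?_, ?_⟩
      · linear_combination -heq
      · rw [hL.mul a' _ ha' hd, hL.mul a _ ha hd']
      · rw [hL.mul a _ ha hd']
      · exact S.sub_mem (S.add_mem sA' sD) (S.add_mem sA sD')
      · exact S.sub_mem sS (S.add_mem sA sD')
    have n1 := hn _ _ t1
    have n2 := hn _ _ t2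
    have n3 := hn _ _ t3
    generalize L (c - a) = D at *
    generalize L (c' - a') = D' at *
    generalize L a = A at *
    generalize L a' = A' at *
    generalize L c = K at *
    generalize L c' = K' at *
    generalize L s = s₀ at *
    simp only [map_add, map_sub, LinearMap.add_apply, LinearMap.sub_apply] at n1 n2 n3 ⊢
    have hAA := hm A sA
    have hKK := hm K sK
    have hDD := hm D sD
    have hAA' := hm A' sA'
    have hKK' := hm K' sK'
    have hDD' := hm D' sD'
    have i1 := anti A sA K sK
    have i2 := anti A sA D sD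
    have i3 := anti A sA A' sA'
    have i4 := anti A sA K' sK'
    have i5 := anti A sA D' sD'
    have i6 := anti K sK D sD
    have i7 := anti K sK A' sA'
    have i8 := anti K sK K' sK'
    have i9 := anti K sK D' sD'
    have i10 := anti D sD A' sA'
    have i11 := anti D sD K' sK'
    have i12 := anti D sD D' sD'
    have i13 := anti A' sA' K' sK'
    have i14 := anti A' sA' D' sD'
    have i15 := anti K' sK' D' sD'
    linarith

end Pool.Agent.Helper80.WF.M_CMP
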